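import Pool.Agent.Q119.CR.Main

/-!
# The coherent rank of graphs with three eigenvalues is unbounded

`IsCoherent 𝒜`: the linear subspace `𝒜` of the complex matrices on a finite set contains the identity
and the all-ones matrix and is closed under transposition, products and entrywise products.
`coherentClosure G`: the intersection of all coherent algebras which contain the adjacency matrix of
`G`. `coherentRank G`: its dimension.

The graphs: let `κ = 4 ^ (2 M)`. There are `κ + 5` cells with `κ` vertices (the points of
`F_4 ^ (2 M)`) and `κ - 1` cells with `4 κ` vertices (the points of `F_4 ^ (2 M + 1)`), no edges inside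
the cells. Small cells are completely joined to each other; a small and a large cell are joined by
`p ~ q ↔ χ(a ⬝ p) = χ(u ⬝ q)` with `F_2`-linear functionals, and two large cells `i`, `j` by
`p ~ q ↔ v_j ⬝ p = v_i ⬝ q` (values in `F_4`), where the vectors `v_j` are pairwise not proportional
and the functionals used at a large cell `i` are all those outside the lines `F_4 v_j`, `j ≠ i`. Then
`A² = κ² I + (κ (κ + 1) / 2) w wᵀ` with `w = 2` on the small and `w = 1` on the large cells, and
the eigenvalues are `κ (2 κ + 3)`, `κ`, `-κ`. The entries of the square of the induced subgraph on the
large cells count, within a cell, the `j` with `v_j ⬝ (p - q) = 0`; the vectors `v_j` are chosen so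
that these numbers take at least `M` values.
-/

set_option autoImplicit false

namespace Pool.Agent.Results.MP_ce2158_co.UnboundedRank

open Q119.CR

/-- For every `N` there is a connected graph whose adjacency matrix has exactly three distinct
eigenvalues and whose coherent rank is at least `N`. -/
theorem result (N : ℕ) :
    ∃ (X : Type) (_ : Fintype X) (_ : DecidableEq X) (G : SimpleGraph X) (_ : DecidableRel G.Adj),
      G.Connected ∧ (spectrum ℝ (G.adjMatrix ℝ)).ncard = 3 ∧ N ≤ coherentRank G :=
  Q119.CR.main N

end Pool.Agent.Results.MP_ce2158_co.UnboundedRank
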